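import Pool.Agent.H20.ThmD.Final

/-!
# Coverable balanced separators in graphs excluding a forest and a balanced biclique

For every finite forest `H` and every `t`, every weighted graph in which neither `H` nor
`K_{t,t}` is an induced minor has a balanced separator contained in the union of at most
`(11 t ^ 2) ^ (|V(H)| + 3)` balls of radius one.
-/

set_option autoImplicit false

namespace Pool.Agent.Results.MP_4aeae0_co.ForestBiclique

open Finset Pool.Agent.H20 Pool.Agent.H20.ThmD Pool.Agent.H112R3.TA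

theorem result (α : Type) [Fintype α] (H : SimpleGraph α) (hH : H.IsAcyclic)
    (t : ℕ) (ht : 1 ≤ t) (V : Type) [Fintype V] (G : SimpleGraph V)
    (hG : ¬ IsInducedMinor H G)
    (hK : ¬ IsInducedMinor (completeBipartiteGraph (Fin t) (Fin t)) G)
    (w : V → ℝ) (hw : ∀ v, 0 ≤ w v) :
    ∃ S X : Finset V, X.card ≤ (11 * t ^ 2) ^ (Fintype.card α + 3) ∧
      (∀ v ∈ S, ∃ x ∈ X, v = x ∨ G.Adj x v) ∧
      ∀ C : Finset V, Disjoint C S → (G.induce (C : Set V)).Connected →
        ∑ v ∈ C, w v ≤ (∑ v, w v) / 2 := by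
  classical
  have hD := DS_of_biclique_forest hH ht hK hG
  obtain ⟨Y, hY, h1⟩ := hD.weight w hw
  refine ⟨Y.biUnion (cnb G), Y, hY, ?_, ?_⟩
  · intro v hv
    obtain ⟨y, hy, hyv⟩ := mem_biUnion.1 hv
    rcases mem_cnb.1 hyv with h | h
    · exact ⟨y, hy, Or.inr h⟩
    · exact ⟨y, hy, Or.inl h.symm⟩
  · intro C hC hCc
    have := h1 C hCc (fun v hv y hy => by
      rw [disjoint_left] at hC
      have h2 := hC hv
      rw [mem_biUnion] at h2
      push Not at h2
      have h3 := h2 y hy
      rw [mem_cnb] at h3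
      push Not at h3
      exact ⟨h3.2, h3.1⟩)
    linarith

end Pool.Agent.Results.MP_4aeae0_co.ForestBiclique
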