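import Pool.Agent.H20.Dom

/-!
# Coverable balanced separators in graphs excluding a forest with few leaves

If every component of `H` is a tree with at most three leaves, that is, if `H` is an induced
subgraph of the disjoint union of `k` copies of the claw with three legs of `n` vertices, then
every weighted graph without `H` as an induced minor has a balanced separator which is contained
in the union of at most `(2 k + 1) (3 n + 3)` balls of radius one.
-/

set_option autoImplicit false

namespace Pool.Agent.Results.MP_4aeae0_co.ThreeLeafTrees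

open Finset Pool.Agent.H20 Pool.Agent.H112R3.TA

theorem result (k n : ℕ) (hn : 1 ≤ n) (α : Type) (H : SimpleGraph α)
    (hH : Nonempty (H ↪g Cop (Fin k) (Spi Unit (fun _ => ()) n)))
    (V : Type) [Fintype V] (G : SimpleGraph V) (w : V → ℝ) (hw : ∀ v, 0 ≤ w v)
    (hG : ¬ IsInducedMinor H G) :
    ∃ S : Finset V, ∃ C : Finset V,
      C.card ≤ (2 * k + 1) * (3 * n + 3) ∧
      (∀ x ∈ S, ∃ v ∈ C, G.edist v x ≤ 1) ∧
      (∀ T : Finset V, Disjoint T S → (G.induce (T : Set V)).Connected →
        ∑ v ∈ T, w v ≤ (∑ v, w v) / 2) := by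
  classical
  obtain ⟨ψ⟩ := hH
  have hS : IsEmpty (Cop (Fin k) (SS n) ↪g G) :=
    ⟨fun φ => hG ((cop_minor φ).of_emb ψ)⟩
  have hL : IsEmpty (Cop (Fin k) (LL n) ↪g G) :=
    ⟨fun φ => hG ((cop_minor φ).of_emb ψ)⟩
  have hmono : ∀ A B : Finset V, A ⊆ B → ∑ v ∈ A, w v ≤ ∑ v ∈ B, w v := fun A B hAB =>
    Finset.sum_le_sum_of_subset_of_nonneg hAB (fun v _ _ => hw v)
  obtain ⟨Y, hY, hYbal⟩ := dom_sep (G := G) (k := k) hn
    (fun A => (∑ v, w v) / 2 < ∑ v ∈ A, w v)
    (fun A B hAB hA => hA.trans_le (hmono A B hAB))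
    (fun A B hA hB => by
      by_contra hcon
      rw [not_nonempty_iff_eq_empty] at hcon
      have hdis : Disjoint A B := disjoint_iff_inter_eq_empty.2 hcon
      have h1 := hmono (A ∪ B) univ (subset_univ _)
      rw [sum_union hdis] at h1
      linarith) hS hL
  refine ⟨Y.biUnion (cnb G), Y, hY, ?_, ?_⟩
  · intro x hx
    obtain ⟨v, hv, hxv⟩ := mem_biUnion.1 hx
    refine ⟨v, hv, ?_⟩
    rcases mem_cnb.1 hxv with h | h
    · exact (SimpleGraph.edist_eq_one_iff_adj.2 h).le
    · rw [h, SimpleGraph.edist_self]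
      exact bot_le
  · intro T hT hconn
    by_contra hcon
    push Not at hcon
    obtain ⟨s⟩ := hconn.nonempty
    have hsS : s.1 ∉ Y.biUnion (cnb G) := fun h => disjoint_left.1 hT s.2 h
    refine hYbal s.1 hsS (hcon.trans_le (hmono _ _ ?_))
    intro y hy
    rw [mem_comp]
    let f : G.induce (T : Set V) →g del G (Y.biUnion (cnb G)) :=
      ⟨Subtype.val, fun {a b} hab => ⟨hab, fun h => disjoint_left.1 hT a.2 h,
        fun h => disjoint_left.1 hT b.2 h⟩⟩
    exact (hconn.preconnected s ⟨y, hy⟩).map f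

end Pool.Agent.Results.MP_4aeae0_co.ThreeLeafTrees
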